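import Pool.Agent.Helper20.P3F.St1

/-!
# Project P3F (MP_cb927e_an), module LOS3: many hits in one class, `u ≤ κ (u - t + ρ + 1)`

Adaptation of Pool/Agent/Helper51/EQ/M_LOS.lean.
-/

set_option autoImplicit false

open MeasureTheory Set Filter Topology
open scoped ENNReal RealInnerProductSpace

namespace Pool.Agent.Helper47.P3F

open Pool.Agent.Helper20.RG Pool.Agent.Helper20.EQ Pool.Agent.Helper20.P3F
open Pool.Agent.Helper68.LM (Pl BB Bd Av HL ft fm DQ)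
open Pool.Agent.Helper68.EP (elt GapP StGPG)

private theorem los_tsum_finset {n : ℕ} (f : ℕ → ℤ → ℝ≥0∞) :
    ∑' k : ℤ, ∑ i ∈ Finset.range n, f i k = ∑ i ∈ Finset.range n, ∑' k : ℤ, f i k :=
  Summable.tsum_finsetSum (fun _ _ => ENNReal.summable)

/-- the number of indices as a sum -/
private theorem ncard_eq (N : ℕ) (P : ℕ → Prop) [DecidablePred P] :
    ({j : ℕ | j < N ∧ P j}.ncard : ℝ) = ((Finset.range N).filter P).card := by
  rw [← Set.ncard_coe_finset]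
  congr 2
  ext j
  simp

private theorem fin_lt (N : ℕ) (P : ℕ → Prop) : {j : ℕ | j < N ∧ P j}.Finite :=
  (Set.finite_lt_nat N).subset fun _ hj => hj.1

/-- Markov for the number of large functions -/
private theorem los_mk (N : ℕ) (D : ℕ → Pl → ℝ) (hD : ∀ j < N, Continuous (D j)) (m η : ℝ)
    (hm : 0 < m) (hη : 0 < η) :
    volume {x | m ≤ ({j : ℕ | j < N ∧ η ≤ |D j x|}.ncard : ℝ)} ≤
      ENNReal.ofReal (1 / (m * η ^ 2)) * ∑ j ∈ Finset.range N, ∫⁻ x, ‖D j x‖ₑ ^ 2 := by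
  classical
  have hmeas : ∀ j ∈ Finset.range N, Measurable fun x => ‖D j x‖ₑ ^ 2 := fun j hj =>
    ((hD j (Finset.mem_range.mp hj)).measurable.enorm).pow_const 2
  have hm2 : Measurable fun x => ∑ j ∈ Finset.range N, ‖D j x‖ₑ ^ 2 :=
    Finset.measurable_fun_sum _ hmeas
  have h1 := mul_meas_ge_le_lintegral (μ := volume) hm2 (ENNReal.ofReal (m * η ^ 2))
  rw [lintegral_finsetSum _ hmeas] at h1
  have h2 : {x | m ≤ ({j : ℕ | j < N ∧ η ≤ |D j x|}.ncard : ℝ)} ⊆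
      {x | ENNReal.ofReal (m * η ^ 2) ≤ ∑ j ∈ Finset.range N, ‖D j x‖ₑ ^ 2} := by
    intro x hx
    have hx' : m ≤ ({j : ℕ | j < N ∧ η ≤ |D j x|}.ncard : ℝ) := hx
    rw [ncard_eq N (fun j => η ≤ |D j x|)] at hx'
    show ENNReal.ofReal (m * η ^ 2) ≤ ∑ j ∈ Finset.range N, ‖D j x‖ₑ ^ 2
    calc ENNReal.ofReal (m * η ^ 2)
        ≤ ENNReal.ofReal ((((Finset.range N).filter (fun j => η ≤ |D j x|)).card : ℝ) * η ^ 2) := by
          gcongr
      _ = ∑ _j ∈ (Finset.range N).filter (fun j => η ≤ |D j x|), ENNReal.ofReal (η ^ 2) := by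
          rw [Finset.sum_const, nsmul_eq_mul, ENNReal.ofReal_mul (by positivity),
            ENNReal.ofReal_natCast]
      _ ≤ ∑ j ∈ (Finset.range N).filter (fun j => η ≤ |D j x|), ‖D j x‖ₑ ^ 2 := by
          refine Finset.sum_le_sum fun j hj => ?_
          have h3 : η ≤ |D j x| := (Finset.mem_filter.mp hj).2
          rw [Real.enorm_eq_ofReal_abs, ← ENNReal.ofReal_pow (abs_nonneg _)]
          exact ENNReal.ofReal_le_ofReal (pow_le_pow_left₀ hη.le h3 2)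
      _ ≤ ∑ j ∈ Finset.range N, ‖D j x‖ₑ ^ 2 :=
          Finset.sum_le_sum_of_subset (Finset.filter_subset _ _)
  calc volume {x | m ≤ ({j : ℕ | j < N ∧ η ≤ |D j x|}.ncard : ℝ)}
      = ENNReal.ofReal (1 / (m * η ^ 2)) * (ENNReal.ofReal (m * η ^ 2) *
          volume {x | m ≤ ({j : ℕ | j < N ∧ η ≤ |D j x|}.ncard : ℝ)}) := by
        rw [← mul_assoc, ← ENNReal.ofReal_mul (by positivity),
          show 1 / (m * η ^ 2) * (m * η ^ 2) = (1 : ℝ) by field_simp, ENNReal.ofReal_one, one_mul]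
    _ ≤ ENNReal.ofReal (1 / (m * η ^ 2)) * (ENNReal.ofReal (m * η ^ 2) *
          volume {x | ENNReal.ofReal (m * η ^ 2) ≤ ∑ j ∈ Finset.range N, ‖D j x‖ₑ ^ 2}) := by
        gcongr
    _ ≤ _ := by gcongr

/-- pigeonhole for the classes -/
private theorem los_pigeon (hPS : ∀ (Zf : ℕ → ℤ → ℕ → Pl → ℝ) (u v : ℕ) (η : ℝ) (k : ℤ) (x : Pl),
      1 ≤ v → u ≤ v → 0 < η →
    {j : ℕ | j < 2 ^ u ∧ η ≤ |Zf (om v 0 0) k j x|}.ncard ≤
      ∑ b ∈ Finset.range (3 * v + 2), (Pv Zf u v η b k x).ncard)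
    (Zf : ℕ → ℤ → ℕ → Pl → ℝ) (u v : ℕ) (η m : ℝ) (k : ℤ) (x : Pl)
    (hv : 1 ≤ v) (huv : u ≤ v) (hη : 0 < η)
    (hm : m ≤ ({j : ℕ | j < 2 ^ u ∧ η ≤ |Zf (om v 0 0) k j x|}.ncard : ℝ)) :
    ∃ b ∈ Finset.range (3 * v + 2), m / (3 * v + 2) ≤ ((Pv Zf u v η b k x).ncard : ℝ) := by
  by_contra hcon
  push Not at hcon
  have h1 := hPS Zf u v η k x hv huv hη
  have h2 : ({j : ℕ | j < 2 ^ u ∧ η ≤ |Zf (om v 0 0) k j x|}.ncard : ℝ) ≤
      ∑ b ∈ Finset.range (3 * v + 2), ((Pv Zf u v η b k x).ncard : ℝ) := by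
    exact_mod_cast h1
  have h3 : ∑ b ∈ Finset.range (3 * v + 2), ((Pv Zf u v η b k x).ncard : ℝ) <
      ∑ _b ∈ Finset.range (3 * v + 2), m / (3 * v + 2) := by
    apply Finset.sum_lt_sum_of_nonempty
    · exact ⟨0, by simp⟩
    · exact hcon
  rw [Finset.sum_const, Finset.card_range, nsmul_eq_mul] at h3
  push_cast at h3
  have h4 : (3 * (v : ℝ) + 2) * (m / (3 * v + 2)) = m := by
    field_simp
  rw [h4] at h3
  linarith

/-- one class, few exotic slopes -/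
private theorem los_one (u v : ℕ) (η Λ m₁ A σ Cf CW : ℝ) (K b : ℕ) (g : Pl → ℝ)
    (Zf : ℕ → ℤ → ℕ → Pl → ℝ) (G : Set Pl) (hCW : 0 < CW) (hCf : 1 ≤ Cf) (hA : 0 ≤ A)
    (hη : 0 < η) (hΛ : 0 < Λ) (hm0 : 0 < m₁)
    (hW : ∀ k : ℤ, volume {x | x ∈ G ∧ m₁ ≤ ((Pv Zf u v η b k x).ncard : ℝ)} ≤
        ENNReal.ofReal ((1 / 2) ^ (16 * v) / (16 * Cf * Λ / η ^ 2)) *
          (∑ j ∈ Finset.range (2 ^ u), volume (Ew Zf v η b 0 (1 / 4) k j)) +
        ∑ i ∈ Finset.range (16 * v),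
          ENNReal.ofReal (CW * nv u v b A σ * (64 * (16 * Cf * Λ / η ^ 2)) / m₁ ^ 3) *
            ∑ j ∈ Finset.range (2 ^ u), volume (Ew Zf v η b i (1 / 4) k j))
    (hER : ∀ i : ℕ,
      (∑' k : ℤ, ∑ j ∈ Finset.range (2 ^ u), volume (Ew Zf v η b i (1 / 4) k j) ≤
        ENNReal.ofReal ((4 / η) ^ 2 * (Cf * (K + v + 1))) * ∫⁻ x, ‖g x‖ₑ ^ 2) ∧
      (b ≤ 3 * v → ∀ T : ℕ, 1 ≤ T →
        ∑' k : ℤ, ∑ j ∈ Finset.range (2 ^ u), volume (Ew Zf v η b i (1 / 4) k j) ≤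
          ENNReal.ofReal ((4 * Ms v / η) ^ 2 *
            (16 * v * (Cf * mu u A σ ((2 : ℝ) ^ b * (1024 * (v : ℝ) ^ 2)) T))) * ∫⁻ x, ‖g x‖ₑ ^ 2))
    (B3 B4 : ℝ) (hB3 : 0 ≤ B3) (hB4 : 0 ≤ B4)
    (h3d : (1 / 2) ^ (16 * v) / (16 * Cf * Λ / η ^ 2) * ((4 / η) ^ 2 * (Cf * (K + v + 1))) ≤ B3)
    (h4 : ∃ V : ℝ, 0 ≤ V ∧ (V = (4 / η) ^ 2 * (Cf * (K + v + 1)) ∨ (b ≤ 3 * v ∧ ∃ T : ℕ, 1 ≤ T ∧
        V = (4 * Ms v / η) ^ 2 * (16 * v * (Cf * mu u A σ ((2 : ℝ) ^ b * (1024 * (v : ℝ) ^ 2)) T)))) ∧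
      16 * v * (CW * nv u v b A σ * (64 * (16 * Cf * Λ / η ^ 2)) / m₁ ^ 3) * V ≤ B4) :
    ∑' k : ℤ, volume {x | x ∈ G ∧ m₁ ≤ ((Pv Zf u v η b k x).ncard : ℝ)} ≤
      ENNReal.ofReal (B3 + B4) * ∫⁻ x, ‖g x‖ₑ ^ 2 := by
  obtain ⟨V, hV0, hV, h4'⟩ := h4
  -- the bound for the windows
  have hwin : ∀ i : ℕ, ∑' k : ℤ, ∑ j ∈ Finset.range (2 ^ u), volume (Ew Zf v η b i (1 / 4) k j) ≤
      ENNReal.ofReal V * ∫⁻ x, ‖g x‖ₑ ^ 2 := by
    intro i
    obtain ⟨hE1, hE2⟩ := hER i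
    rcases hV with hV | ⟨hb3, T, hT, hV⟩
    · rw [hV]; exact hE1
    · rw [hV]; exact hE2 hb3 T hT
  have hwin0 : ∑' k : ℤ, ∑ j ∈ Finset.range (2 ^ u), volume (Ew Zf v η b 0 (1 / 4) k j) ≤
      ENNReal.ofReal ((4 / η) ^ 2 * (Cf * (K + v + 1))) * ∫⁻ x, ‖g x‖ₑ ^ 2 := (hER 0).1
  have hns0 : 0 ≤ nv u v b A σ := by
    unfold nv
    positivity
  set D : ℝ := 16 * Cf * Λ / η ^ 2 with hD
  have hD0 : 0 < D := by
    rw [hD]
    have : 0 < Cf := by linarith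
    positivity
  set c1' : ℝ := (1 / 2) ^ (16 * v) / D with hc1
  set c2' : ℝ := CW * nv u v b A σ * (64 * D) / m₁ ^ 3 with hc2
  have hc1' : 0 ≤ c1' := by rw [hc1]; positivity
  have hc2' : 0 ≤ c2' := by rw [hc2]; positivity
  calc ∑' k : ℤ, volume {x | x ∈ G ∧ m₁ ≤ ((Pv Zf u v η b k x).ncard : ℝ)}
      ≤ ∑' k : ℤ, (ENNReal.ofReal c1' *
          (∑ j ∈ Finset.range (2 ^ u), volume (Ew Zf v η b 0 (1 / 4) k j)) +
        ∑ i ∈ Finset.range (16 * v), ENNReal.ofReal c2' *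
            ∑ j ∈ Finset.range (2 ^ u), volume (Ew Zf v η b i (1 / 4) k j)) :=
        ENNReal.tsum_le_tsum hW
    _ = ENNReal.ofReal c1' * (∑' k : ℤ, ∑ j ∈ Finset.range (2 ^ u),
          volume (Ew Zf v η b 0 (1 / 4) k j)) +
        ∑ i ∈ Finset.range (16 * v), ENNReal.ofReal c2' *
            ∑' k : ℤ, ∑ j ∈ Finset.range (2 ^ u), volume (Ew Zf v η b i (1 / 4) k j) := by
        rw [ENNReal.tsum_add, ENNReal.tsum_mul_left]
        exact congrArg₂ (· + ·) rfl ((los_tsum_finset (n := 16 * v) (fun i k => ENNReal.ofReal c2' *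
            ∑ j ∈ Finset.range (2 ^ u), volume (Ew Zf v η b i (1 / 4) k j))).trans
          (Finset.sum_congr rfl fun i _ => ENNReal.tsum_mul_left))
    _ ≤ ENNReal.ofReal c1' * (ENNReal.ofReal ((4 / η) ^ 2 * (Cf * (K + v + 1))) *
          ∫⁻ x, ‖g x‖ₑ ^ 2) +
        ∑ _i ∈ Finset.range (16 * v), ENNReal.ofReal c2' * (ENNReal.ofReal V *
          ∫⁻ x, ‖g x‖ₑ ^ 2) := by
        refine add_le_add (mul_le_mul' le_rfl hwin0) ?_
        exact Finset.sum_le_sum fun i _ => mul_le_mul' le_rfl (hwin i)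
    _ = (ENNReal.ofReal (c1' * ((4 / η) ^ 2 * (Cf * (K + v + 1)))) +
          ENNReal.ofReal (16 * v * c2' * V)) * ∫⁻ x, ‖g x‖ₑ ^ 2 := by
        rw [Finset.sum_const, Finset.card_range, nsmul_eq_mul, add_mul]
        congr 1
        · rw [← mul_assoc, ENNReal.ofReal_mul hc1']
        · rw [← mul_assoc, ← mul_assoc]
          congr 1
          rw [ENNReal.ofReal_mul (by positivity), ENNReal.ofReal_mul (by positivity)]
          congr 2
          rw [← ENNReal.ofReal_natCast]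
          push_cast
          rfl
    _ ≤ (ENNReal.ofReal B3 + ENNReal.ofReal B4) * ∫⁻ x, ‖g x‖ₑ ^ 2 := by
        gcongr
    _ = _ := by
        rw [ENNReal.ofReal_add hB3 hB4]

/-- `Fam` is monotone in the constant -/
private theorem fam_mono {u : ℕ} {Cf Cf' : ℝ} {K : ℕ} {A σ : ℝ} {s : ℕ → ℝ} {g : Pl → ℝ}
    {Zf : ℕ → ℤ → ℕ → Pl → ℝ} (h : Fam u Cf K A σ s g Zf) (hC : Cf ≤ Cf') (hA : 0 ≤ A) :
    Fam u Cf' K A σ s g Zf := by
  refine ⟨h.one, h.cont, h.inv, ?_, ?_, ?_, ?_⟩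
  · intro W k x
    refine (h.lb W k x).trans ?_
    refine mul_le_mul' (ENNReal.ofReal_le_ofReal hC) (lintegral_mono_set ?_)
    rintro y ⟨h1, h2⟩
    have h3 : Cf * (2 : ℝ) ^ (k + (W : ℤ)) ≤ Cf' * (2 : ℝ) ^ (k + (W : ℤ)) :=
      mul_le_mul_of_nonneg_right hC (by positivity)
    exact ⟨h1.trans h3, h2.trans h3⟩
  · intro W
    refine (h.all W).trans ?_
    gcongr
  · intro W w w' T h1 h2 h3 h4 h5 h6
    refine (h.dif W w w' T h1 h2 h3 h4 h5 h6).trans ?_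
    gcongr
  · intro W
    refine (h.tot W).trans ?_
    gcongr

private theorem loc_mono {Cf Cf' Λ : ℝ} {g : Pl → ℝ} {x : Pl} (h : Loc Cf' Λ g x) (hC : Cf ≤ Cf') :
    Loc Cf Λ g x := by
  intro k
  refine le_trans (lintegral_mono_set ?_) (h k)
  rintro y ⟨h1, h2⟩
  have h3 : Cf * (2 : ℝ) ^ k ≤ Cf' * (2 : ℝ) ^ k :=
    mul_le_mul_of_nonneg_right hC (by positivity)
  exact ⟨h1.trans h3, h2.trans h3⟩

/-- the number `KA` -/
private theorem ka_le (A p : ℝ) (hA : 0 < A) (hp : 2 < p) (u : ℕ) :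
    (KA (A ^ (1 / p)) p u : ℝ) ≤ (A + 2) * (2 : ℝ) ^ (p * u) := by
  have hp0 : 0 < p := by linarith
  unfold KA
  have h1 : (A ^ (1 / p) * (2 : ℝ) ^ u) ^ p = A * (2 : ℝ) ^ (p * u) := by
    rw [Real.mul_rpow (by positivity) (by positivity), ← Real.rpow_mul hA.le,
      one_div_mul_cancel hp0.ne', Real.rpow_one, ← Real.rpow_natCast 2 u,
      ← Real.rpow_mul (by norm_num), mul_comm (u : ℝ) p]
  have h2 := Nat.ceil_lt_add_one (a := (A ^ (1 / p) * (2 : ℝ) ^ u) ^ p) (by positivity)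
  push_cast
  rw [h1] at h2 ⊢
  have h3 : (u : ℝ) + 2 ≤ 2 * (2 : ℝ) ^ u := by
    have : u + 1 ≤ 2 ^ u := Nat.lt_two_pow_self
    have h4 : ((u : ℝ) + 1) ≤ (2 : ℝ) ^ u := by exact_mod_cast this
    have h5 : (1 : ℝ) ≤ (2 : ℝ) ^ u := one_le_pow₀ (by norm_num)
    linarith
  have h4 : (2 : ℝ) ^ u ≤ (2 : ℝ) ^ (p * u) := by
    rw [← Real.rpow_natCast 2 u]
    apply Real.rpow_le_rpow_of_exponent_le (by norm_num)
    have : (0 : ℝ) ≤ u := Nat.cast_nonneg u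
    nlinarith
  linarith

theorem hLOS3 (hVL : StVL) (hWCV : StWCV) (hNVA3 : StNVA3) (hNVB3 : StNVB3) (hNVC3 : StNVC3)
    (hNVD3 : StNVD3) (hDFZ : StDFZ) (hFAM : StFAM) (hSYS : StSYS) (hGPG : StGPG) :
    Pool.Agent.Helper20.P3F.StLOS3 := by
  intro φ τ A e c hGr hA hGap κ Cρ hκ he hek
  have hp0 : (0 : ℝ) < 3 := by norm_num
  have hp2 : (2 : ℝ) < 3 := by norm_num
  have hκ' : (1 : ℝ) ≤ (κ : ℝ) := by exact_mod_cast hκ
  have he100 : e ≤ 1 / 100 := by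
    refine hek.trans ?_
    apply one_div_le_one_div_of_le (by norm_num)
    linarith
  set A' : ℝ := A ^ (1 / (3 : ℝ)) with hA'
  have hA'0 : 0 < A' := by rw [hA']; positivity
  have hgap : Gap A' 3 τ := hGPG τ A 3 hA hp0 hGap
  obtain ⟨Cf0, hCf0, hfam⟩ := hFAM 200 (‖c‖ + |φ 0| + 3) (by norm_num)
  obtain ⟨CD, hCD, hdfz⟩ := hDFZ 200 (by norm_num)
  set Cf : ℝ := Cf0 + CD + A + 2 with hCfdef
  have hCf : 1 ≤ Cf := by linarith
  have hCf0' : 0 ≤ Cf := by linarith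
  obtain ⟨t1, C1, hC1, h1⟩ := hNVA3 Cf A' e κ Cρ hCf hA'0.le he he100
  obtain ⟨t2, C2, hC2, h2⟩ := hNVB3 Cf A' e κ Cρ hCf hA'0.le he he100
  obtain ⟨t3, C3, hC3, h3⟩ := hNVC3 Cf A' e κ Cρ hCf hA'0.le he he100
  obtain ⟨CW, hCW, hW⟩ := hWCV
  obtain ⟨t4, C4, hC4, h4⟩ := hNVD3 Cf A' CW e κ Cρ hCf hA'0.le hCW hκ he hek
  obtain ⟨hPS, hVL2⟩ := hVL
  have hdl : 0 < e / 20 := by positivity
  refine ⟨Cf + (3 * Cρ + 5) * (C1 + C2 + C3 + C4), t1 + t2 + t3 + t4, ?_, ?_⟩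
  · have : 0 ≤ (3 * (Cρ : ℝ) + 5) * (C1 + C2 + C3 + C4) := by positivity
    linarith
  intro u t ρ g G ht hu hut hρ hκu hg hg01 hG
  have hCle : Cf ≤ Cf + (3 * Cρ + 5) * (C1 + C2 + C3 + C4) := by
    have : 0 ≤ (3 * (Cρ : ℝ) + 5) * (C1 + C2 + C3 + C4) := by positivity
    linarith
  by_cases hcase : (1 - e) * t ≤ u
  swap
  · -- the sets are empty
    have hempty : ∀ k : ℤ, volume {x | x ∈ G ∧ (2 : ℝ) ^ ((1 - e) * t) ≤
        ((Hh c φ τ u ρ k g x).ncard : ℝ)} = 0 := by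
      intro k
      have : {x | x ∈ G ∧ (2 : ℝ) ^ ((1 - e) * t) ≤ ((Hh c φ τ u ρ k g x).ncard : ℝ)} = ∅ := by
        ext x
        simp only [Set.mem_ofPred_eq, mem_empty_iff_false, iff_false]
        rintro ⟨-, hx⟩
        push Not at hcase
        have h5 : (2 : ℝ) ^ (u : ℝ) < (2 : ℝ) ^ ((1 - e) * t) :=
          Real.rpow_lt_rpow_of_exponent_lt (by norm_num) hcase
        rw [Real.rpow_natCast] at h5
        have h6 : (Hh c φ τ u ρ k g x).ncard ≤ 2 ^ u := by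
          have h7 : Hh c φ τ u ρ k g x ⊆ ((Finset.range (2 ^ u) : Finset ℕ) : Set ℕ) := by
            intro j hj
            simp only [Finset.coe_range, mem_Iio]
            exact hj.1
          calc (Hh c φ τ u ρ k g x).ncard ≤ ((Finset.range (2 ^ u) : Finset ℕ) : Set ℕ).ncard :=
                Set.ncard_le_ncard h7 (Finset.finite_toSet _)
            _ = 2 ^ u := by rw [Set.ncard_coe_finset, Finset.card_range]
        have h8 : ((Hh c φ τ u ρ k g x).ncard : ℝ) ≤ (2 : ℝ) ^ u := by exact_mod_cast h6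
        linarith
      rw [this, measure_empty]
    rw [tsum_congr hempty, tsum_zero]
    exact bot_le
  -- the main case
  set v : ℕ := (Cρ + 1) * u with hvdef
  have huv : u ≤ v := by
    rw [hvdef]
    nlinarith
  have hv2 : 2 ≤ v := hu.trans huv
  have hv1 : 1 ≤ v := by omega
  have hv0 : (0 : ℝ) < v := by exact_mod_cast hv1
  have hv1' : (1 : ℝ) ≤ v := by exact_mod_cast hv1
  set η : ℝ := (2 : ℝ) ^ (-((ρ : ℤ) + 2)) with hηdef
  have hη : 0 < η := by rw [hηdef]; positivity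
  set m : ℝ := (2 : ℝ) ^ ((1 - e) * t) with hmdef
  have hm : 0 < m := by rw [hmdef]; positivity
  set m₁ : ℝ := m / (2 * (3 * v + 2)) with hm₁def
  have hm₁ : 0 < m₁ := by rw [hm₁def]; positivity
  have hNu : Nue e κ Cρ u v t ρ η m₁ := ⟨hu, rfl, hut, hcase, hρ, rfl, rfl, hκu⟩
  set Λ : ℝ := (4 : ℝ) ^ ((t : ℤ) - u - ρ) with hΛdef
  have hΛ : 0 < Λ := by rw [hΛdef]; positivity
  obtain ⟨-, hsys⟩ := hSYS φ τ A' 3 c hGr hgap hA'0 hp0 u (by omega)
  have hsys := hsys hu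
  set K : ℕ := KA A' 3 u with hKdef
  have hK : (K : ℝ) ≤ Cf * (2 : ℝ) ^ ((3 : ℝ) * u) := by
    refine (ka_le A 3 hA hp2 u).trans ?_
    apply mul_le_mul_of_nonneg_right _ (by positivity)
    linarith
  set s : ℕ → ℝ := fun j => τ (tm u j) with hs
  set Zf : ℕ → ℤ → ℕ → Pl → ℝ := fun W k j => Zc c φ τ u W k j g with hZf
  have hF0 : Fam u Cf0 K A' 3 s g Zf := hfam u _ _ _ _ K A' 3 hsys hA'0.le g hg hg01
  have hF : Fam u Cf K A' 3 s g Zf := fam_mono hF0 (by linarith) hA'0.le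
  have hS : Slo u A' 3 s := ⟨hsys.slope, hsys.sep⟩
  have hG' : ∀ x ∈ G, Loc Cf Λ g x := fun x hx => loc_mono (hG x hx) hCle
  obtain ⟨-, -, hMK, hER⟩ := hVL2 u v Cf K A' 3 s g Zf η hF (by omega) huv hCf hA'0.le hη
  set B : ℝ := (2 : ℝ) ^ tge e u t ρ with hB
  have hB0 : 0 < B := by rw [hB]; positivity
  have hM1 : 1 ≤ Ms v := by
    unfold Ms
    nlinarith
  obtain ⟨T0, hT0, hNA⟩ := h1 u v t ρ η m₁ (by omega) hNu
  -- every class
  have hcl : ∀ b ∈ Finset.range (3 * v + 2),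
      ∑' k : ℤ, volume {x | x ∈ G ∧ m₁ ≤ ((Pv Zf u v η b k x).ncard : ℝ)} ≤
        ENNReal.ofReal ((C1 + C2 + C3 + C4) * B) * ∫⁻ x, ‖g x‖ₑ ^ 2 := by
    intro b hb
    rw [Finset.mem_range] at hb
    have hmk : ∀ (T : ℕ) (B' : ℝ), b ≤ 3 * v → 1 ≤ T →
        1 / m₁ * (2 * Ms v / η) ^ 2 *
          (16 * v * (Cf * mu u A' 3 ((2 : ℝ) ^ b * (1024 * (v : ℝ) ^ 2)) T)) ≤ B' →
        ∑' k : ℤ, volume {x | x ∈ G ∧ m₁ ≤ ((Pv Zf u v η b k x).ncard : ℝ)} ≤
          ENNReal.ofReal B' * ∫⁻ x, ‖g x‖ₑ ^ 2 := by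
      intro T B' hb' hT hB'
      calc ∑' k : ℤ, volume {x | x ∈ G ∧ m₁ ≤ ((Pv Zf u v η b k x).ncard : ℝ)}
          ≤ ∑' k : ℤ, volume {x | m₁ ≤ ((Pv Zf u v η b k x).ncard : ℝ)} :=
            ENNReal.tsum_le_tsum fun k => measure_mono fun x hx => hx.2
        _ ≤ _ := hMK m₁ b T hm₁ hb' hT
        _ ≤ _ := by gcongr
    rcases Nat.eq_zero_or_pos b with hb0 | hb0
    · subst hb0
      refine hmk T0 _ (by omega) hT0 (hNA.trans ?_)
      apply mul_le_mul_of_nonneg_right _ hB0.le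
      linarith
    · by_cases hns : m₁ < 200 * nv u v b A' 3
      · have hb3 : b ≤ 3 * v := by
          by_contra hcon
          have hbe : b = 3 * v + 1 := by omega
          obtain ⟨-, -, -, -, h6, -⟩ := h3 u v t ρ η m₁ K (by omega) hNu (Nat.cast_nonneg K) hK
          rw [hbe] at hns
          linarith
        obtain ⟨T, hT, hBB⟩ := h2 u v t ρ η m₁ b (by omega) hNu hb0 hb3 hns
        refine hmk T _ hb3 hT (hBB.trans ?_)
        apply mul_le_mul_of_nonneg_right _ hB0.le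
        linarith
      · push Not at hns
        obtain ⟨h3a, h3b, h3c, h3e, -, h3d⟩ :=
          h3 u v t ρ η m₁ K (by omega) hNu (Nat.cast_nonneg K) hK
        have h4' := h4 u v t ρ η m₁ K b (by omega) hNu (Nat.cast_nonneg K) hK hb0 (by omega)
        have hWk : ∀ k : ℤ, volume {x | x ∈ G ∧ m₁ ≤ ((Pv Zf u v η b k x).ncard : ℝ)} ≤
            ENNReal.ofReal ((1 / 2) ^ (16 * v) / (16 * Cf * Λ / η ^ 2)) *
              (∑ j ∈ Finset.range (2 ^ u), volume (Ew Zf v η b 0 (1 / 4) k j)) +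
            ∑ i ∈ Finset.range (16 * v),
              ENNReal.ofReal (CW * nv u v b A' 3 * (64 * (16 * Cf * Λ / η ^ 2)) / m₁ ^ 3) *
                ∑ j ∈ Finset.range (2 ^ u), volume (Ew Zf v η b i (1 / 4) k j) := fun k =>
          hW u v Cf K A' 3 s g Zf η Λ m₁ b k G hF hCf hA'0.le hS hg hg01 hG' (by omega) huv hv2
            h3c h3e hΛ hb0 hns h3a h3b
        refine (los_one u v η Λ m₁ A' 3 Cf CW K b g Zf G hCW hCf hA'0.le hη hΛ hm₁ hWk
          (fun i => hER b i) (C3 * B) (C4 * B) (by positivity) (by positivity) h3d h4').trans ?_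
        gcongr ENNReal.ofReal ?_ * _
        have : 0 ≤ (C1 + C2) * B := by positivity
        linarith
  -- the differences
  have hw : om v 0 0 = 1024 * v ^ 2 := by
    unfold om
    ring
  have hdiff : ∑' k : ℤ, volume {x | m / 2 ≤ ({j : ℕ | j < 2 ^ u ∧
      η ≤ |Zf (om v 0 0) k j x - Zf 0 k j x|}.ncard : ℝ)} ≤
      ENNReal.ofReal (C1 * B) * ∫⁻ x, ‖g x‖ₑ ^ 2 := by
    have hd := hdfz u s (ce c φ u) (mm τ u) (fun j => mm τ (u - 1) (j / 2)) _ K A' 3 hsys hA'0.le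
      (om v 0 0) T0 g hg hT0
    have hMD : ∀ (k : ℤ) (j : ℕ) (x : Pl), ‖Zf (om v 0 0) k j x - Zf 0 k j x‖ₑ ≤
        MD (s j) (ce c φ u j) (mm τ u j) (mm τ (u - 1) (j / 2)) (om v 0 0) k g x := by
      intro k j x
      unfold MD
      exact Finset.le_sup (f := fun w => ‖Z (s j) (ce c φ u j) (mm τ u j) (mm τ (u - 1) (j / 2))
        ((2 : ℝ) ^ w) k g x - Z (s j) (ce c φ u j) (mm τ u j) (mm τ (u - 1) (j / 2))
        ((2 : ℝ) ^ 0) k g x‖ₑ) (Finset.mem_range.mpr (Nat.lt_succ_self _))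
    calc ∑' k : ℤ, volume {x | m / 2 ≤ ({j : ℕ | j < 2 ^ u ∧
          η ≤ |Zf (om v 0 0) k j x - Zf 0 k j x|}.ncard : ℝ)}
        ≤ ∑' k : ℤ, ENNReal.ofReal (1 / (m / 2 * η ^ 2)) * ∑ j ∈ Finset.range (2 ^ u),
            ∫⁻ x, ‖Zf (om v 0 0) k j x - Zf 0 k j x‖ₑ ^ 2 := by
          refine ENNReal.tsum_le_tsum fun k => ?_
          exact los_mk (2 ^ u) (fun j x => Zf (om v 0 0) k j x - Zf 0 k j x)
            (fun j hj => (hF.cont _ _ _ hj).sub (hF.cont _ _ _ hj)) (m / 2) η (by positivity) hη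
      _ ≤ ∑' k : ℤ, ENNReal.ofReal (1 / (m / 2 * η ^ 2)) * ∑ j ∈ Finset.range (2 ^ u),
            ∫⁻ x, MD (s j) (ce c φ u j) (mm τ u j) (mm τ (u - 1) (j / 2)) (om v 0 0) k g x ^ 2 := by
          refine ENNReal.tsum_le_tsum fun k => ?_
          refine mul_le_mul' le_rfl (Finset.sum_le_sum fun j _ => lintegral_mono fun x => ?_)
          exact pow_le_pow_left' (hMD k j x) 2
      _ ≤ ENNReal.ofReal (1 / (m / 2 * η ^ 2)) * (ENNReal.ofReal (CD * (T0 + u + 1 +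
            ((om v 0 0 : ℕ) + 1) * (1 + (2 : ℝ) ^ u * (A' * (T0 : ℝ) ^ (-(1 / (3 : ℝ))))))) *
              ∫⁻ x, ‖g x‖ₑ ^ 2) := by
          rw [ENNReal.tsum_mul_left]
          gcongr
      _ = ENNReal.ofReal (1 / (m / 2 * η ^ 2) * (CD * (T0 + u + 1 +
            ((om v 0 0 : ℕ) + 1) * (1 + (2 : ℝ) ^ u * (A' * (T0 : ℝ) ^ (-(1 / (3 : ℝ)))))))) *
              ∫⁻ x, ‖g x‖ₑ ^ 2 := by
          rw [← mul_assoc, ← ENNReal.ofReal_mul (by positivity)]
      _ ≤ _ := by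
          gcongr ENNReal.ofReal ?_ * _
          refine le_trans ?_ hNA
          rw [hw]
          push_cast
          set X : ℝ := (2 : ℝ) ^ u * (A' * (T0 : ℝ) ^ (-(1 / (3 : ℝ)))) with hX
          have hX0 : 0 ≤ X := by rw [hX]; positivity
          set Wv : ℝ := 1024 * (v : ℝ) ^ 2 with hWv
          have hWv1 : (1 : ℝ) ≤ Wv := by rw [hWv]; nlinarith
          have huW : (u : ℝ) + 1 ≤ Wv := by
            have : (u : ℝ) ≤ v := by exact_mod_cast huv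
            rw [hWv]
            nlinarith
          have hmu : mu u A' 3 ((2 : ℝ) ^ 0 * Wv) T0 = T0 + Wv * (1 + X) := by
            unfold mu
            rw [pow_zero, one_mul]
          rw [hmu]
          have hT0' : (0 : ℝ) ≤ T0 := Nat.cast_nonneg T0
          have e1' : (T0 : ℝ) + u + 1 + (Wv + 1) * (1 + X) ≤ 3 * (T0 + Wv * (1 + X)) := by
            nlinarith
          have e2' : 1 / (m / 2 * η ^ 2) ≤ 1 / m₁ * (2 * Ms v / η) ^ 2 := by
            have f1 : 1 / (m / 2 * η ^ 2) = 1 / (m / 2) * (1 / η) ^ 2 := by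
              field_simp
            rw [f1]
            have f2 : 1 / (m / 2) ≤ 1 / m₁ := by
              apply one_div_le_one_div_of_le hm₁
              rw [hm₁def]
              apply div_le_div_of_nonneg_left hm.le (by norm_num)
              linarith
            have f3 : 1 / η ≤ 2 * Ms v / η := by
              apply div_le_div_of_nonneg_right _ hη.le
              linarith
            have f4 : (0 : ℝ) ≤ 1 / η := by positivity
            gcongr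
          have e3' : CD * (3 * (T0 + Wv * (1 + X))) ≤ 16 * v * (Cf * (T0 + Wv * (1 + X))) := by
            have f5 : 0 ≤ (T0 : ℝ) + Wv * (1 + X) := by positivity
            have f6 : CD * 3 ≤ 16 * v * Cf := by
              have : CD ≤ Cf := by linarith
              nlinarith
            calc CD * (3 * (T0 + Wv * (1 + X))) = (CD * 3) * (T0 + Wv * (1 + X)) := by ring
              _ ≤ (16 * v * Cf) * (T0 + Wv * (1 + X)) := by gcongr
              _ = _ := by ring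
          calc 1 / (m / 2 * η ^ 2) * (CD * ((T0 : ℝ) + u + 1 + (Wv + 1) * (1 + X)))
              ≤ (1 / m₁ * (2 * Ms v / η) ^ 2) * (CD * (3 * (T0 + Wv * (1 + X)))) := by
                gcongr
            _ ≤ _ := by gcongr
  -- the sum
  have hthr : (2 : ℝ) ^ (-((ρ : ℤ) + 1)) = 2 * η := by
    rw [hηdef, show (-((ρ : ℤ) + 1)) = -((ρ : ℤ) + 2) + 1 by ring, zpow_add_one₀ (by norm_num)]
    ring
  have hsub : ∀ k : ℤ, {x | x ∈ G ∧ m ≤ ((Hh c φ τ u ρ k g x).ncard : ℝ)} ⊆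
      {x | m / 2 ≤ ({j : ℕ | j < 2 ^ u ∧
        η ≤ |Zf (om v 0 0) k j x - Zf 0 k j x|}.ncard : ℝ)} ∪
      ⋃ b ∈ Finset.range (3 * v + 2), {x | x ∈ G ∧ m₁ ≤ ((Pv Zf u v η b k x).ncard : ℝ)} := by
    rintro k x ⟨hxG, hx⟩
    by_cases h5 : m / 2 ≤ ({j : ℕ | j < 2 ^ u ∧
        η ≤ |Zf (om v 0 0) k j x - Zf 0 k j x|}.ncard : ℝ)
    · exact Or.inl h5
    right
    push Not at h5
    have h6 : Hh c φ τ u ρ k g x ⊆ {j : ℕ | j < 2 ^ u ∧
        η ≤ |Zf (om v 0 0) k j x - Zf 0 k j x|} ∪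
        {j : ℕ | j < 2 ^ u ∧ η ≤ |Zf (om v 0 0) k j x|} := by
      intro j hj
      obtain ⟨hj1, hj2⟩ := hj
      rw [hthr] at hj2
      by_cases h7 : η ≤ |Zf (om v 0 0) k j x - Zf 0 k j x|
      · exact Or.inl ⟨hj1, h7⟩
      · right
        push Not at h7
        refine ⟨hj1, ?_⟩
        have h8 : |Zf 0 k j x| ≤ |Zf (om v 0 0) k j x| + |Zf (om v 0 0) k j x - Zf 0 k j x| := by
          have h9 : Zf 0 k j x = Zf (om v 0 0) k j x - (Zf (om v 0 0) k j x - Zf 0 k j x) := by ring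
          calc |Zf 0 k j x| = |Zf (om v 0 0) k j x - (Zf (om v 0 0) k j x - Zf 0 k j x)| := by
                rw [← h9]
            _ ≤ _ := abs_sub _ _
        have h10 : 2 * η ≤ |Zf 0 k j x| := hj2
        linarith
    have h7 : ((Hh c φ τ u ρ k g x).ncard : ℝ) ≤ ({j : ℕ | j < 2 ^ u ∧
        η ≤ |Zf (om v 0 0) k j x - Zf 0 k j x|}.ncard : ℝ) +
        ({j : ℕ | j < 2 ^ u ∧ η ≤ |Zf (om v 0 0) k j x|}.ncard : ℝ) := by
      have h8 := (Set.ncard_le_ncard h6 ((fin_lt _ _).union (fin_lt _ _))).trans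
        (Set.ncard_union_le _ _)
      exact_mod_cast h8
    have h8 : m / 2 ≤ ({j : ℕ | j < 2 ^ u ∧ η ≤ |Zf (om v 0 0) k j x|}.ncard : ℝ) := by
      have hx' : m ≤ ((Hh c φ τ u ρ k g x).ncard : ℝ) := hx
      linarith
    obtain ⟨b, hb, hb'⟩ := los_pigeon hPS Zf u v η (m / 2) k x hv1 huv hη h8
    simp only [Set.mem_iUnion]
    refine ⟨b, hb, hxG, ?_⟩
    have h9 : m₁ = m / 2 / (3 * v + 2) := by
      rw [hm₁def]
      field_simp
    rw [h9]
    exact hb'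
  calc ∑' k : ℤ, volume {x | x ∈ G ∧ m ≤ ((Hh c φ τ u ρ k g x).ncard : ℝ)}
      ≤ ∑' k : ℤ, (volume {x | m / 2 ≤ ({j : ℕ | j < 2 ^ u ∧
          η ≤ |Zf (om v 0 0) k j x - Zf 0 k j x|}.ncard : ℝ)} +
          ∑ b ∈ Finset.range (3 * v + 2),
            volume {x | x ∈ G ∧ m₁ ≤ ((Pv Zf u v η b k x).ncard : ℝ)}) := by
        refine ENNReal.tsum_le_tsum fun k => ?_
        refine (measure_mono (hsub k)).trans ((measure_union_le _ _).trans ?_)
        gcongr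
        exact measure_biUnion_finset_le (Finset.range (3 * v + 2)) _
    _ = ∑' k : ℤ, volume {x | m / 2 ≤ ({j : ℕ | j < 2 ^ u ∧
          η ≤ |Zf (om v 0 0) k j x - Zf 0 k j x|}.ncard : ℝ)} +
          ∑ b ∈ Finset.range (3 * v + 2),
            ∑' k : ℤ, volume {x | x ∈ G ∧ m₁ ≤ ((Pv Zf u v η b k x).ncard : ℝ)} := by
        rw [ENNReal.tsum_add]
        congr 1
        exact los_tsum_finset _
    _ ≤ ENNReal.ofReal (C1 * B) * (∫⁻ x, ‖g x‖ₑ ^ 2) +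
          ∑ _b ∈ Finset.range (3 * v + 2),
            ENNReal.ofReal ((C1 + C2 + C3 + C4) * B) * (∫⁻ x, ‖g x‖ₑ ^ 2) :=
        add_le_add hdiff (Finset.sum_le_sum hcl)
    _ = ENNReal.ofReal (C1 * B + (3 * v + 2) * ((C1 + C2 + C3 + C4) * B)) *
          ∫⁻ x, ‖g x‖ₑ ^ 2 := by
        rw [Finset.sum_const, Finset.card_range, nsmul_eq_mul, ← mul_assoc, ← add_mul]
        congr 1
        rw [ENNReal.ofReal_add (by positivity) (by positivity),
          ENNReal.ofReal_mul (p := 3 * (v : ℝ) + 2) (by positivity)]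
        congr 2
        rw [← ENNReal.ofReal_natCast]
        push_cast
        rfl
    _ ≤ _ := by
        gcongr ENNReal.ofReal ?_ * _
        have hsplit : (2 : ℝ) ^ (tge e u t ρ + e / 20 * t) = B * (2 : ℝ) ^ (e / 20 * t) := by
          rw [hB, Real.rpow_add (by norm_num)]
        rw [hsplit]
        set R : ℝ := (2 : ℝ) ^ (e / 20 * t) with hR
        have hR1 : 1 ≤ R := by
          rw [hR]
          apply Real.one_le_rpow (by norm_num)
          positivity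
        have hvR : 3 * (v : ℝ) + 2 ≤ (3 * Cρ + 4) * R := by
          have f1 : (v : ℝ) = (Cρ + 1) * u := by
            rw [hvdef]
            push_cast
            ring
          have f2 : (2 : ℝ) ≤ u := by exact_mod_cast hu
          have f3 : (0 : ℝ) ≤ Cρ := Nat.cast_nonneg Cρ
          calc 3 * (v : ℝ) + 2 ≤ (3 * Cρ + 4) * u := by
                rw [f1]
                nlinarith
            _ ≤ (3 * Cρ + 4) * R := by gcongr
        set S : ℝ := C1 + C2 + C3 + C4 with hSdef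
        have hS0 : 0 ≤ S := by positivity
        have hC1S : C1 ≤ S := by linarith
        calc C1 * B + (3 * v + 2) * (S * B) ≤ S * (B * R) + ((3 * Cρ + 4) * R) * (S * B) := by
              have f4 : C1 * B ≤ S * (B * R) := by
                have : C1 * B ≤ S * B := mul_le_mul_of_nonneg_right hC1S hB0.le
                have f5 : S * B ≤ S * (B * R) := by
                  apply mul_le_mul_of_nonneg_left _ hS0
                  nlinarith
                linarith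
              have f6 : (3 * (v : ℝ) + 2) * (S * B) ≤ ((3 * Cρ + 4) * R) * (S * B) :=
                mul_le_mul_of_nonneg_right hvR (by positivity)
              linarith
          _ = (3 * Cρ + 5) * S * (B * R) := by ring
          _ ≤ (Cf + (3 * Cρ + 5) * S) * (B * R) := by
              apply mul_le_mul_of_nonneg_right _ (by positivity)
              linarith

end Pool.Agent.Helper47.P3F
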